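import Mathlib

set_option autoImplicit false

namespace Pool.Agent.H.MP_f969e6_lc

open Polynomial

noncomputable def toPoly {n : ℕ} (v : Fin n → ZMod 2) : (ZMod 2)[X] := ∑ i : Fin n, C (v i) * X ^ (i : ℕ)

def code (n : ℕ) (t g : (ZMod 2)[X]) : Set (Fin n → ZMod 2) :=
  {v | Ideal.Quotient.mk (Ideal.span {t}) (toPoly v) ∈ Ideal.span {Ideal.Quotient.mk (Ideal.span {t}) g}}

def dual {n : ℕ} (D : Set (Fin n → ZMod 2)) : Set (Fin n → ZMod 2) :=
  {u | ∀ v ∈ D, ∑ k, u k * v k = 0}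

def IsoDual {n : ℕ} (D : Set (Fin n → ZMod 2)) : Prop :=
  ∃ σ : Equiv.Perm (Fin n), (fun v => v ∘ σ) '' D = dual D

noncomputable def gg : (ZMod 2)[X] := X ^ 10 + X ^ 9 + X ^ 7 + X ^ 6 + X ^ 2 + X + 1

lemma two' : (2 : (ZMod 2)[X]) = 0 := CharTwo.two_eq_zero

lemma gg_dvd : gg ∣ X ^ 20 + X ^ 10 + 1 :=
  ⟨X ^ 10 + X ^ 9 + X ^ 8 + X ^ 4 + X ^ 3 + X + 1, by
    have h : gg * (X ^ 10 + X ^ 9 + X ^ 8 + X ^ 4 + X ^ 3 + X + 1) = X ^ 20 + X ^ 10 + 1 +
      2 * (X + X ^ 2 * 1 + X ^ 3 + X ^ 4 + X ^ 5 + X ^ 6 + X ^ 7 + X ^ 8 + 2 * X ^ 9 + 3 * X ^ 10 +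
        2 * X ^ 11 + X ^ 12 + X ^ 13 + X ^ 14 + X ^ 15 + X ^ 16 + X ^ 17 + X ^ 18 + X ^ 19) := by
      unfold gg; ring
    rw [h, two']; ring⟩

lemma gg_monic : gg.Monic := by unfold gg; monicity!

lemma gg_deg : gg.natDegree = 10 := by unfold gg; compute_degree!

lemma gg_sq : gg ^ 2 ≠ X ^ 20 + X ^ 10 + 1 := by
  intro h
  have h2 : gg ^ 2 = X ^ 20 + X ^ 18 + X ^ 14 + X ^ 12 + X ^ 4 + X ^ 2 + 1 := by
    unfold gg
    simp only [CharTwo.add_sq, ← pow_mul, one_pow]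
  have := congrArg (fun p => coeff p 2) (h2.symm.trans h)
  simp [coeff_X_pow, coeff_one] at this

lemma mem_code {n : ℕ} {t g : (ZMod 2)[X]} (h : g ∣ t) (v : Fin n → ZMod 2) :
    v ∈ code n t g ↔ g ∣ toPoly v := by
  simp only [code, Set.mem_setOf_eq, Ideal.mem_span_singleton]
  constructor
  · rintro ⟨q, hq⟩
    obtain ⟨q, rfl⟩ := Ideal.Quotient.mk_surjective q
    rw [← map_mul, Ideal.Quotient.eq, Ideal.mem_span_singleton] at hq
    have := dvd_add (h.trans hq) (dvd_mul_right g q)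
    simpa using this
  · exact fun h => map_dvd _ h

def row (j : Fin 10) (i : Fin 20) : ZMod 2 :=
  if (i : ℕ) - j ∈ [0, 1, 2, 6, 7, 9, 10] ∧ (j : ℕ) ≤ i then 1 else 0

lemma coeff_toPoly {n : ℕ} (v : Fin n → ZMod 2) (i : Fin n) : (toPoly v).coeff i = v i := by
  simp [toPoly, coeff_X_pow, Fin.val_inj]

lemma toPoly_comb (c : Fin 10 → ZMod 2) :
    toPoly (fun i => ∑ j, c j * row j i) = gg * ∑ j : Fin 10, C (c j) * X ^ (j : ℕ) := by
  simp [toPoly, Fin.sum_univ_succ, row, gg]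
  ring

lemma dvd_iff (v : Fin 20 → ZMod 2) :
    gg ∣ toPoly v ↔ ∃ c : Fin 10 → ZMod 2, v = fun i => ∑ j, c j * row j i := by
  constructor
  · rintro ⟨m, hm⟩
    have hd : (toPoly v).natDegree ≤ 19 := by
      refine natDegree_sum_le_of_forall_le _ _ fun i _ => (natDegree_C_mul_X_pow_le _ _).trans ?_
      omega
    have hm' : m.natDegree < 10 := by
      by_cases h0 : m = 0
      · simp [h0]
      · rw [hm, natDegree_mul gg_monic.ne_zero h0, gg_deg] at hd; omega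
    refine ⟨fun j => m.coeff j, funext fun i => ?_⟩
    rw [← coeff_toPoly v, ← coeff_toPoly (fun i => ∑ j : Fin 10, m.coeff j * row j i), toPoly_comb, hm]
    congr 2
    conv_lhs => rw [m.as_sum_range_C_mul_X_pow' hm']
    exact (Fin.sum_univ_eq_sum_range (fun j => C (m.coeff j) * X ^ j) 10).symm
  · rintro ⟨c, rfl⟩
    exact ⟨_, toPoly_comb c⟩

lemma mem_dual (u : Fin 20 → ZMod 2) :
    u ∈ dual (code 20 (X ^ 20 + X ^ 10 + 1) gg) ↔ ∀ j, ∑ k, u k * row j k = 0 := by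
  constructor
  · intro h j
    refine h _ ((mem_code gg_dvd _).2 ((dvd_iff _).2 ⟨Pi.single j 1, funext fun i => ?_⟩))
    simp [Pi.single_apply]
  · intro h v hv
    obtain ⟨c, rfl⟩ := (dvd_iff _).1 ((mem_code gg_dvd _).1 hv)
    simp only [Finset.mul_sum]
    rw [Finset.sum_comm]
    refine Finset.sum_eq_zero fun j _ => ?_
    have := congrArg (c j * ·) (h j)
    simp only [Finset.mul_sum, mul_zero] at this
    rw [← this]
    exact Finset.sum_congr rfl fun k _ => by ring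

lemma key (v : Fin 20 → ZMod 2) : (∃ c : Fin 10 → ZMod 2, v = fun i => ∑ j, c j * row j i) ↔
    ∀ j, ∑ k, v (k + 10) * row j k = 0 := by
  constructor
  · rintro ⟨c, rfl⟩ j
    simp only [Finset.sum_mul]
    rw [Finset.sum_comm]
    refine Finset.sum_eq_zero fun l _ => ?_
    have : ∀ l j : Fin 10, ∑ k : Fin 20, row l (k + 10) * row j k = 0 := by decide +kernel
    simp only [mul_assoc, ← Finset.mul_sum, this, mul_zero]
  · intro h
    have two : (2 : ZMod 2) = 0 := rfl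
    have h0 := h 0; have h1 := h 1; have h2 := h 2; have h3 := h 3; have h4 := h 4
    have h5 := h 5; have h6 := h 6; have h7 := h 7; have h8 := h 8; have h9 := h 9
    simp [Fin.sum_univ_succ, row] at h0 h1 h2 h3 h4 h5 h6 h7 h8 h9
    refine ⟨![v 0, v 0 + v 1, v 1 + v 2, v 0 + v 2 + v 3, v 0 + v 1 + v 3 + v 4, v 1 + v 2 + v 4 + v 5, v 2 + v 3 + v 5 + v 6, v 3 + v 4 + v 6 + v 7, v 0 + v 4 + v 5 + v 7 + v 8, v 0 + v 1 + v 5 + v 6 + v 8 + v 9], funext fun i => ?_⟩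
    fin_cases i <;> simp [Fin.sum_univ_succ, row]
    · linear_combination ((-1) * v 0) * two
    · linear_combination ((-1) * v 0 + (-1) * v 1) * two
    · linear_combination ((-1) * v 0 + (-1) * v 1 + (-1) * v 2) * two
    · linear_combination ((-1) * v 0 + (-1) * v 1 + (-1) * v 2 + (-1) * v 3) * two
    · linear_combination ((-1) * v 0 + (-1) * v 1 + (-1) * v 2 + (-1) * v 3 + (-1) * v 4) * two
    · linear_combination ((-1) * v 0 + (-1) * v 1 + (-1) * v 2 + (-1) * v 3 + (-1) * v 4 + (-1) * v 5) * two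
    · linear_combination ((-1) * v 0 + (-1) * v 1 + (-1) * v 2 + (-1) * v 3 + (-1) * v 4 + (-1) * v 5 + (-1) * v 6) * two
    · linear_combination ((-1) * v 0 + (-1) * v 1 + (-1) * v 2 + (-1) * v 3 + (-1) * v 4 + (-1) * v 5 + (-1) * v 6 + (-1) * v 7) * two
    · linear_combination ((-2) * v 0 + (-1) * v 1 + (-1) * v 2 + (-1) * v 3 + (-1) * v 4 + (-1) * v 5 + (-1) * v 6 + (-1) * v 7 + (-1) * v 8) * two
    · linear_combination h0 + h1 + h3 + h4 + h8 + h9 + ((-6) * v 0 + (-3) * v 1 + (-1) * v 2 + (-2) * v 3 + (-2) * v 4 + (-2) * v 5 + (-1) * v 6 + (-1) * v 7 + (-2) * v 8 + (-1) * v 9 + (-1) * v 11 + (-1) * v 12 + (-1) * v 13 + (-1) * v 14 + (-1) * v 15 + (-1) * v 16 + (-1) * v 17 + (-1) * v 18 + (-2) * v 19) * two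
    · linear_combination h1 + h2 + h4 + h5 + h9 + ((-3) * v 0 + (-5) * v 1 + (-2) * v 2 + (-1) * v 3 + (-2) * v 4 + (-2) * v 5 + (-1) * v 6 + (-1) * v 8 + (-1) * v 9 + (-1) * v 12 + (-1) * v 13 + (-1) * v 14 + (-1) * v 15 + (-1) * v 16 + (-1) * v 17 + (-1) * v 18 + (-1) * v 19) * two
    · linear_combination h2 + h3 + h5 + h6 + ((-1) * v 0 + (-2) * v 1 + (-4) * v 2 + (-2) * v 3 + (-1) * v 4 + (-2) * v 5 + (-1) * v 6 + (-1) * v 13 + (-1) * v 14 + (-1) * v 15 + (-1) * v 16 + (-1) * v 17 + (-1) * v 18 + (-1) * v 19) * two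
    · linear_combination h3 + h4 + h6 + h7 + ((-2) * v 0 + (-1) * v 1 + (-2) * v 2 + (-4) * v 3 + (-2) * v 4 + (-1) * v 5 + (-2) * v 6 + (-1) * v 7 + (-1) * v 14 + (-1) * v 15 + (-1) * v 16 + (-1) * v 17 + (-1) * v 18 + (-1) * v 19) * two
    · linear_combination h4 + h5 + h7 + h8 + ((-2) * v 0 + (-2) * v 1 + (-1) * v 2 + (-2) * v 3 + (-4) * v 4 + (-2) * v 5 + (-1) * v 6 + (-2) * v 7 + (-1) * v 8 + (-1) * v 15 + (-1) * v 16 + (-1) * v 17 + (-1) * v 18 + (-1) * v 19) * two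
    · linear_combination h5 + h6 + h8 + h9 + ((-2) * v 0 + (-2) * v 1 + (-2) * v 2 + (-1) * v 3 + (-2) * v 4 + (-4) * v 5 + (-2) * v 6 + (-1) * v 7 + (-2) * v 8 + (-1) * v 9 + (-1) * v 16 + (-1) * v 17 + (-1) * v 18 + (-1) * v 19) * two
    · linear_combination h6 + h7 + h9 + ((-1) * v 0 + (-1) * v 1 + (-1) * v 2 + (-2) * v 3 + (-1) * v 4 + (-2) * v 5 + (-3) * v 6 + (-1) * v 7 + (-1) * v 8 + (-1) * v 9 + (-1) * v 17 + (-1) * v 18 + (-1) * v 19) * two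
    · linear_combination h7 + h8 + ((-1) * v 0 + (-1) * v 3 + (-2) * v 4 + (-1) * v 5 + (-1) * v 6 + (-2) * v 7 + (-1) * v 8 + (-1) * v 18 + (-1) * v 19) * two
    · linear_combination h8 + h9 + ((-2) * v 0 + (-1) * v 1 + (-1) * v 4 + (-2) * v 5 + (-1) * v 6 + (-1) * v 7 + (-2) * v 8 + (-1) * v 9 + (-1) * v 19) * two
    · linear_combination h9 + ((-1) * v 0 + (-1) * v 1 + (-1) * v 5 + (-1) * v 6 + (-1) * v 8 + (-1) * v 9) * two

theorem isoDual : IsoDual (code 20 (X ^ 20 + X ^ 10 + 1) gg) := by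
  refine ⟨Equiv.addRight 10, Set.ext fun u => ?_⟩
  rw [mem_dual]
  constructor
  · rintro ⟨v, hv, rfl⟩
    exact (key v).1 ((dvd_iff _).1 ((mem_code gg_dvd _).1 hv))
  · intro h
    refine ⟨fun k => u (k - 10), (mem_code gg_dvd _).2 ((dvd_iff _).2 ((key _).2 ?_)), ?_⟩
    · simpa using h
    · funext k; simp

end Pool.Agent.H.MP_f969e6_lc
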